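import Pool.Agent.Helper75x.NRA.Gen

/-! Project S04319, task A2: the criterion. -/

set_option autoImplicit false
set_option linter.unusedSectionVars false

namespace Pool.Agent.Helper75x.NRA

open Topology Pointwise Set

variable {P : Type} [Group P] [TopologicalSpace P] [IsTopologicalGroup P]

lemma Z_eq {K N : Subgroup P} (h : Dist K N) {z : P} (hz : z ∈ Oc K 1 N) :
    Oc K z N = Oc K 1 N :=
  subset_antisymm (Oc_trans hz) (Oc_trans (h 1 z hz))

lemma Z_mul {K N N' : Subgroup P} (hd : Dist K N)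
    (hnorm : ∀ n ∈ N', ∀ p ∈ N, n * p * n⁻¹ ∈ N) {z n z' : P} (hn : n ∈ N')
    (hz : z ∈ Oc K 1 N) (hzn : z * n ∈ Oc K 1 N) (hz' : z' ∈ Oc K 1 N) : z' * n ∈ Oc K 1 N := by
  rw [← Z_eq hd hz] at hz'
  have := Oc_mul (n := n) (fun p hp => by simpa using hnorm n⁻¹ (inv_mem hn) p hp) hz'
  rwa [Z_eq hd hzn] at this

/-- the stabiliser -/
def Sb {K N N' : Subgroup P} (hd : Dist K N) (hnorm : ∀ n ∈ N', ∀ p ∈ N, n * p * n⁻¹ ∈ N) :
    Subgroup P where
  carrier := {n | n ∈ N' ∧ n ∈ Oc K 1 N}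
  one_mem' := ⟨one_mem _, self_mem K 1 N⟩
  mul_mem' := by
    rintro a b ⟨ha, ha'⟩ ⟨hb, hb'⟩
    exact ⟨mul_mem ha hb, Z_mul hd hnorm hb (self_mem K 1 N) (by rwa [one_mul]) ha'⟩
  inv_mem' := by
    rintro a ⟨ha, ha'⟩
    refine ⟨inv_mem ha, ?_⟩
    have := Z_mul hd hnorm (inv_mem ha) ha' (by simpa using self_mem K 1 N) (self_mem K 1 N)
    rwa [one_mul] at this

theorem a2_step {L G N N' Λ : Subgroup P} [CompactSpace (P ⧸ N)] (hLG : L ≤ G) (hNN : N ≤ N')
    (clN' : IsClosed (N' : Set P))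
    (hnorm : ∀ n ∈ N', ∀ p ∈ N, n * p * n⁻¹ ∈ N)
    (hcomm : ∀ u ∈ N', ∀ v ∈ N', u * v * u⁻¹ * v⁻¹ ∈ N) (dL : Dist L N) (dG : Dist G N)
    (hnil : ∃ c, Gl G c = ⊥) (hΛ : Λ ≤ N)
    (hgen : ∀ V ∈ 𝓝 (1 : P), ∀ x ∈ G,
      x ∈ closure ((Subgroup.closure ((L : Set P) ∪ (V ∩ (G : Set P))) : Subgroup P) : Set P))
    (hchar : ∀ c : G →* Circle, Continuous c → (∀ g : G, (g : P) ∈ L → c g = 1) →
        (∀ g : G, (g : P) ∈ Λ → c g = 1) → ∀ g : G, c g = 1)
    (ih : ∀ x ∈ G, x ∈ Oc L 1 N') : ∀ x ∈ G, x ∈ Oc L 1 N := by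
  set Y : Set P := Oc L 1 N with hYdef
  set W : Set P := Oc G 1 N with hWdef
  set S : Subgroup P := Sb dG hnorm with hSdef
  set T : Subgroup P := Sb dL hnorm with hTdef
  have hYW : Y ⊆ W := Oc_mono hLG le_rfl 1
  have hS : ∀ k, k ∈ S ↔ k ∈ N' ∧ k ∈ W := fun k => Iff.rfl
  have hT : ∀ k, k ∈ T ↔ k ∈ N' ∧ k ∈ Y := fun k => Iff.rfl
  have hTS : T ≤ S := fun k hk => ⟨hk.1, hYW hk.2⟩
  have hNT : N ≤ T := fun p hp => ⟨hNN hp, by
    have := mem_Oc (K := L) (N := N) (x := 1) (l := 1) (p := p) (one_mem _) hp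
    simpa using this⟩
  have hNS : N ≤ S := hNT.trans hTS
  have hGW : ∀ g ∈ G, g ∈ W := fun g hg => by
    have := mem_Oc (K := G) (N := N) (x := 1) (l := g) (p := 1) hg (one_mem _)
    simpa using this
  have h1Y : (1 : P) ∈ Y := self_mem L 1 N
  have h1W : (1 : P) ∈ W := self_mem G 1 N
  have hYc : IsClosed Y := Oc_closed _ _ _
  have hWc : IsClosed W := Oc_closed _ _ _
  have hSc : IsClosed (S : Set P) := clN'.inter hWc
  have hTc : IsClosed (T : Set P) := clN'.inter hYc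
  have hWS : ∀ w ∈ W, ∀ k ∈ S, w * k ∈ W := fun w hw k hk =>
    Z_mul dG hnorm hk.1 h1W (by rw [one_mul]; exact hk.2) hw
  have hYT : ∀ w ∈ Y, ∀ k ∈ T, w * k ∈ Y := fun w hw k hk =>
    Z_mul dL hnorm hk.1 h1Y (by rw [one_mul]; exact hk.2) hw
  have hYT' : ∀ y ∈ Y, ∀ k ∈ N', y * k ∈ Y → k ∈ T := by
    intro y hy k hk hyk
    refine ⟨hk, ?_⟩
    have := Z_mul dL hnorm hk hy hyk h1Y
    rwa [one_mul] at this
  have hWS' : ∀ y ∈ W, ∀ k ∈ N', y * k ∈ W → k ∈ S := by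
    intro y hy k hk hyk
    refine ⟨hk, ?_⟩
    have := Z_mul dG hnorm hk hy hyk h1W
    rwa [one_mul] at this
  -- `W = Y S`
  have hex : ∀ w ∈ W, ∃ q : P × S, q.1 ∈ Y ∧ w = q.1 * q.2 := by
    intro w hw
    have hc : IsClosed (Y * (N' : Set P)) := closed_mul N hYc clN' (Oc_RI L 1 N)
      (fun m hm a ha => mul_mem (hNN hm) ha)
    have h1 : Oc L 1 N' ⊆ Y * (N' : Set P) := by
      refine Oc_subset hc ?_ ?_ ⟨1, h1Y, 1, one_mem N', by simp⟩
      · rintro l hl _ ⟨a, ha, b, hb, rfl⟩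
        exact ⟨l * a, Oc_LI L 1 N l hl a ha, b, hb, by simp [mul_assoc]⟩
      · rintro l hl _ ⟨a, ha, b, hb, rfl⟩
        exact ⟨a, ha, b * l, mul_mem hb hl, by simp [mul_assoc]⟩
    have h2 : W ⊆ Oc L 1 N' := by
      refine closure_minimal ?_ (Oc_closed _ _ _)
      rintro _ ⟨g, hg, p, hp, rfl⟩
      rw [mul_one]
      exact Oc_RI L 1 N' p (hNN hp) g (ih g hg)
    obtain ⟨y, hy, k, hk, hyk⟩ := h1 (h2 hw)
    simp only at hyk
    have hkS : k ∈ S := hWS' y (hYW hy) k hk (by rw [hyk]; exact hw)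
    exact ⟨(y, ⟨k, hkS⟩), hy, hyk.symm⟩
  by_cases hST : S ≤ T
  · intro x hx
    obtain ⟨⟨y, k⟩, hy, hxy⟩ := hex x (hGW x hx)
    rw [hxy]
    exact hYT y hy k (hST k.2)
  exfalso
  obtain ⟨s, hs, hsT⟩ := SetLike.not_le_iff_exists.1 hST
  have : CompactSpace (P ⧸ T) := compact_quot hNT
  obtain ⟨χ, hχ, hχT, hχs⟩ := exists_char S T hTS hSc hTc
    (fun u hu v hv => hNT (hcomm u hu.1 v hv.1)) s hs hsT
  choose! dec hdec using hex
  set φ : P → Circle := fun w => χ (dec w).2 with hφdef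
  have hφ : ∀ y ∈ Y, ∀ k : S, φ (y * k) = χ k := by
    intro y hy k
    have hw : y * (k : P) ∈ W := hWS y (hYW hy) k k.2
    obtain ⟨h1, h2⟩ := hdec _ hw
    set y' := (dec (y * (k : P))).1 with hy'
    set k' := (dec (y * (k : P))).2 with hk'
    have h3 : y * ((k : P) * (k' : P)⁻¹) = y' := by
      rw [← mul_assoc, h2]
      group
    have h4 : (k : P) * (k' : P)⁻¹ ∈ T :=
      hYT' y hy _ (mul_mem k.2.1 (inv_mem k'.2.1)) (by rw [h3]; exact h1)
    have h5 : χ (k * k'⁻¹) = 1 := hχT _ h4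
    rw [map_mul, map_inv, mul_inv_eq_one] at h5
    change χ k' = χ k
    exact h5.symm
  have hφY : ∀ y ∈ Y, φ y = 1 := by
    intro y hy
    have := hφ y hy 1
    simpa using this
  have hφ1 : φ 1 = 1 := hφY 1 h1Y
  have hφL : ∀ l ∈ L, ∀ w ∈ W, φ (l * w) = φ w := by
    intro l hl w hw
    obtain ⟨h1, h2⟩ := hdec _ hw
    have h3 := hφ _ (Oc_LI L 1 N l hl _ h1) (dec w).2
    rw [mul_assoc, ← h2] at h3
    exact h3
  have hφS : ∀ w ∈ W, ∀ k : S, φ (w * k) = φ w * χ k := by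
    intro w hw k
    obtain ⟨h1, h2⟩ := hdec _ hw
    have h3 := hφ _ h1 ((dec w).2 * k)
    rw [Subgroup.coe_mul, ← mul_assoc, ← h2, map_mul] at h3
    exact h3
  have hφN : ∀ w ∈ W, ∀ p ∈ N, φ (w * p) = φ w := by
    intro w hw p hp
    have h3 := hφS w hw ⟨p, hNS hp⟩
    rw [hχT p (hNT hp), mul_one] at h3
    exact h3
  -- continuity
  have hcont : ContinuousOn φ W := by
    rw [continuousOn_iff_isClosed]
    intro t ht
    refine ⟨Y * (Subtype.val '' (χ ⁻¹' t)), ?_, ?_⟩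
    · refine closed_mul N hYc (hSc.isClosedEmbedding_subtypeVal.isClosedMap _ (ht.preimage hχ))
        (Oc_RI L 1 N) ?_
      rintro m hm _ ⟨a, ha, rfl⟩
      refine ⟨⟨m, hNS hm⟩ * a, ?_, rfl⟩
      change χ (⟨m, hNS hm⟩ * a) ∈ t
      rw [map_mul, hχT m (hNT hm), one_mul]
      exact ha
    · ext w
      constructor
      · rintro ⟨h1, hw⟩
        obtain ⟨h2, h3⟩ := hdec _ hw
        exact ⟨⟨_, h2, _, ⟨(dec w).2, h1, rfl⟩, h3.symm⟩, hw⟩
      · rintro ⟨⟨y, hy, _, ⟨k, hk, rfl⟩, rfl⟩, hw⟩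
        refine ⟨?_, hw⟩
        change φ (y * k) ∈ t
        rw [hφ y hy k]
        exact hk
  have hGWm : ∀ g ∈ G, ∀ w ∈ W, g * w ∈ W := Oc_LI G 1 N
  have hcontL : ∀ g ∈ G, ContinuousOn (fun w => φ (g * w)) W := fun g hg =>
    hcont.comp (by fun_prop) (fun w hw => hGWm g hg w hw)
  have hcontG : ∀ w ∈ W, ContinuousOn (fun g => φ (g * w)) (G : Set P) := fun w hw =>
    hcont.comp (by fun_prop) (fun g hg => hGWm g hg w hw)
  have hcontG1 : ContinuousOn φ (G : Set P) := hcont.mono (fun g hg => hGW g hg)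
  -- the good elements
  let O : Subgroup P :=
    { carrier := {g | g ∈ G ∧ ∀ w ∈ W, φ (g * w) = φ g * φ w}
      one_mem' := ⟨one_mem _, fun w _ => by rw [one_mul, hφ1, one_mul]⟩
      mul_mem' := by
        rintro a b ⟨ha, ha'⟩ ⟨hb, hb'⟩
        refine ⟨mul_mem ha hb, fun w hw => ?_⟩
        rw [mul_assoc, ha' _ (hGWm b hb w hw), hb' w hw, ha' b (hGW b hb), mul_assoc]
      inv_mem' := by
        rintro a ⟨ha, ha'⟩
        have h1 : ∀ w ∈ W, φ w = φ a * φ (a⁻¹ * w) := by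
          intro w hw
          have := ha' _ (hGWm a⁻¹ (inv_mem ha) w hw)
          rwa [mul_inv_cancel_left] at this
        refine ⟨inv_mem ha, fun w hw => ?_⟩
        have h2 := h1 w hw
        have h3 := h1 1 h1W
        rw [mul_one, hφ1] at h3
        rw [h2, ← mul_assoc, mul_comm (φ a⁻¹) (φ a), ← h3, one_mul] }
  have hO : ∀ g, g ∈ O ↔ g ∈ G ∧ ∀ w ∈ W, φ (g * w) = φ g * φ w := fun g => Iff.rfl
  have hLO : L ≤ O := by
    intro l hl
    refine ⟨hLG hl, fun w hw => ?_⟩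
    have h1 := hφL l hl 1 h1W
    rw [mul_one, hφ1] at h1
    rw [hφL l hl w hw, h1, one_mul]
  have hOcl : ∀ x ∈ G, x ∈ closure (O : Set P) → x ∈ O := by
    intro x hx hxO
    refine ⟨hx, fun w hw => ?_⟩
    have h1 : EqOn (fun g => φ (g * w)) (fun g => φ g * φ w) ((G : Set P) ∩ closure (O : Set P)) :=
      EqOn.of_subset_closure (s := (O : Set P)) (fun g hg => hg.2 w hw)
        ((hcontG w hw).mono inter_subset_left)
        ((hcontG1.mono inter_subset_left).mul continuousOn_const)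
        (fun g hg => ⟨hg.1, subset_closure hg⟩) inter_subset_right
    exact h1 ⟨hx, hxO⟩
  -- small elements
  have hsmall : ∀ j, Gl G (j + 1) ≤ O → ∃ V ∈ 𝓝 (1 : P), ∀ g ∈ V, g ∈ Gl G j → g ∈ O := by
    intro j hj
    -- uniform continuity
    have huc : ∃ V ∈ 𝓝 (1 : P), ∀ g ∈ V, g ∈ G → ∀ w ∈ W, dist (φ (g * w)) (φ w) < 1 / 2 := by
      have hK : IsCompact ((QuotientGroup.mk : P → P ⧸ N) '' W) :=
        (image_closed hWc (Oc_RI G 1 N)).1.isCompact
      have key := hK.induction_on (p := fun s => ∃ V ∈ 𝓝 (1 : P), ∀ g ∈ V, g ∈ G → ∀ w ∈ W,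
        (QuotientGroup.mk w : P ⧸ N) ∈ s → dist (φ (g * w)) (φ w) < 1 / 2) ?_ ?_ ?_ ?_
      · obtain ⟨V, hV, h⟩ := key
        exact ⟨V, hV, fun g hg hgG w hw => h g hg hgG w hw ⟨w, hw, rfl⟩⟩
      · exact ⟨univ, Filter.univ_mem, fun g _ _ w _ h => absurd h (notMem_empty _)⟩
      · rintro s t hst ⟨V, hV, h⟩
        exact ⟨V, hV, fun g hg hgG w hw hws => h g hg hgG w hw (hst hws)⟩
      · rintro s t ⟨V, hV, h⟩ ⟨V', hV', h'⟩
        refine ⟨V ∩ V', Filter.inter_mem hV hV', fun g hg hgG w hw hws => ?_⟩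
        rcases hws with hws | hws
        · exact h g hg.1 hgG w hw hws
        · exact h' g hg.2 hgG w hw hws
      · rintro _ ⟨w0, hw0, rfl⟩
        have h1 : ∀ᶠ w in 𝓝 w0, w ∈ W → dist (φ w) (φ w0) < 1 / 4 := by
          have := (hcont w0 hw0).eventually (Metric.ball_mem_nhds (φ w0) (by norm_num : (0 : ℝ) < 1 / 4))
          rw [eventually_nhdsWithin_iff] at this
          exact this
        have h2 : ∀ᶠ q : P × P in 𝓝 ((1 : P), w0), q.1 * q.2 ∈ W → dist (φ (q.1 * q.2)) (φ w0) < 1 / 4 := by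
          have hc : Filter.Tendsto (fun q : P × P => q.1 * q.2) (𝓝 ((1 : P), w0)) (𝓝 w0) := by
            have : Continuous fun q : P × P => q.1 * q.2 := by fun_prop
            have h3 := this.tendsto ((1 : P), w0)
            simpa using h3
          exact hc.eventually h1
        rw [nhds_prod_eq] at h2
        obtain ⟨V, hV, U, hU, hVU⟩ := Filter.eventually_prod_iff.1 h2
        have hU' : {w | U w ∧ (w ∈ W → dist (φ w) (φ w0) < 1 / 4)} ∈ 𝓝 w0 := hU.and h1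
        refine ⟨(QuotientGroup.mk : P → P ⧸ N) '' {w | U w ∧ (w ∈ W → dist (φ w) (φ w0) < 1 / 4)},
          mem_nhdsWithin_of_mem_nhds
            (QuotientGroup.isOpenQuotientMap_mk.isOpenMap.image_mem_nhds hU'), {g | V g}, hV, ?_⟩
        rintro g hg hgG w hw ⟨u, ⟨hu1, hu2⟩, huw⟩
        have h4 : u⁻¹ * w ∈ N := QuotientGroup.eq.1 huw
        have huW : u ∈ W := by
          have := Oc_RI G 1 N _ (inv_mem h4) w hw
          have e : w * (u⁻¹ * w)⁻¹ = u := by group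
          rwa [e] at this
        have h5 : φ (g * w) = φ (g * u) := by
          have := hφN (g * u) (hGWm g hgG u huW) _ h4
          rwa [mul_assoc, mul_inv_cancel_left] at this
        have h6 : φ w = φ u := by
          have := hφN u huW _ h4
          rwa [mul_inv_cancel_left] at this
        rw [h5, h6]
        have h7 := hVU hg hu1 (hGWm g hgG u huW)
        have h8 := hu2 huW
        calc dist (φ (g * u)) (φ u) ≤ dist (φ (g * u)) (φ w0) + dist (φ w0) (φ u) :=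
              dist_triangle _ _ _
          _ < 1 / 4 + 1 / 4 := by
              rw [dist_comm (φ w0)]
              exact add_lt_add h7 h8
          _ = 1 / 2 := by norm_num
    obtain ⟨V, hV, huc⟩ := huc
    refine ⟨V, hV, fun g hgV hgj => ?_⟩
    have hgG : g ∈ G := Gl_le G j hgj
    have hsm := huc g hgV hgG
    -- the constant `c l`
    have hcl : ∀ l ∈ L, ∀ w ∈ W, φ (g * (l * w)) = φ (l⁻¹ * g * l⁻¹⁻¹ * g⁻¹) * φ (g * w) := by
      intro l hl w hw
      have h1 : l⁻¹ * g * l⁻¹⁻¹ * g⁻¹ ∈ O := hj (comm_Gl' (inv_mem (hLG hl)) hgj)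
      have h2 := h1.2 (g * w) (hGWm g hgG w hw)
      rw [← h2]
      have h3 : (l⁻¹ * g * l⁻¹⁻¹ * g⁻¹) * (g * w) ∈ W := hGWm _ h1.1 _ (hGWm g hgG w hw)
      rw [← hφL l hl _ h3]
      congr 1
      group
    have hpow : ∀ l ∈ L, ∀ n : ℕ, ∀ w ∈ W,
        φ (g * (l ^ n * w)) = φ (l⁻¹ * g * l⁻¹⁻¹ * g⁻¹) ^ n * φ (g * w) := by
      intro l hl n
      induction n with
      | zero => intro w hw; simp
      | succ n ihn =>
        intro w hw
        have hw' : l ^ n * w ∈ W := hGWm _ (pow_mem (hLG hl) n) w hw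
        rw [pow_succ' l, mul_assoc, hcl l hl _ hw', ihn w hw, ← mul_assoc (φ _), ← pow_succ']
    have hc1 : ∀ l ∈ L, φ (l⁻¹ * g * l⁻¹⁻¹ * g⁻¹) = 1 := by
      intro l hl
      apply eq_one_of_pow
      intro n
      set c := φ (l⁻¹ * g * l⁻¹⁻¹ * g⁻¹) with hc
      have h1 := hpow l hl n 1 h1W
      have hlW : l ^ n * 1 ∈ W := hGWm _ (pow_mem (hLG hl) n) 1 h1W
      have h2 := hsm _ hlW
      have h3 := hsm 1 h1W
      have h4 : φ (l ^ n * 1) = 1 := by rw [hφL _ (pow_mem hl n) 1 h1W, hφ1]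
      rw [h1, h4] at h2
      rw [hφ1] at h3
      have e2 : dist (c ^ n * φ (g * 1)) 1 = ‖((c ^ n : Circle) : ℂ) * (φ (g * 1) : ℂ) - 1‖ := by
        rw [cdist, Circle.coe_mul, Circle.coe_one]
      have e3 : dist (φ (g * 1)) 1 = ‖(φ (g * 1) : ℂ) - 1‖ := by
        rw [cdist, Circle.coe_one]
      rw [e2] at h2
      rw [e3] at h3
      have h5 : ‖((c ^ n : Circle) : ℂ) * (φ (g * 1) : ℂ) - (φ (g * 1) : ℂ)‖ =
          ‖((c ^ n : Circle) : ℂ) - 1‖ := by
        rw [← sub_one_mul, norm_mul, Circle.norm_coe, mul_one]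
      rw [← h5]
      calc ‖((c ^ n : Circle) : ℂ) * (φ (g * 1) : ℂ) - (φ (g * 1) : ℂ)‖
          = ‖(((c ^ n : Circle) : ℂ) * (φ (g * 1) : ℂ) - 1) - ((φ (g * 1) : ℂ) - 1)‖ := by
            congr 1; ring
        _ ≤ 1 / 2 + 1 / 2 := (norm_sub_le _ _).trans (add_le_add h2.le h3.le)
        _ = 1 := by norm_num
    -- constancy on `Y`
    have hconstY : ∀ y ∈ Y, φ (g * y) = φ g * φ y := by
      have h1 : EqOn (fun w => φ (g * w)) (fun w => φ g * φ w) Y := by
        refine EqOn.of_subset_closure (s := {z : P | ∃ l ∈ L, ∃ p ∈ N, z = l * 1 * p}) ?_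
          ((hcontL g hgG).mono hYW) (continuousOn_const.mul (hcont.mono hYW)) subset_closure
          subset_rfl
        rintro _ ⟨l, hl, p, hp, rfl⟩
        have hpW : p ∈ W := (hNS hp).2
        change φ (g * (l * 1 * p)) = φ g * φ (l * 1 * p)
        rw [mul_one, hcl l hl p hpW, hc1 l hl, one_mul, hφL l hl p hpW]
        have h2 := hφN g (hGW g hgG) p hp
        have h3 := hφN 1 h1W p hp
        rw [one_mul, hφ1] at h3
        rw [h2, h3, mul_one]
      exact fun y hy => h1 hy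
    refine ⟨hgG, fun w hw => ?_⟩
    obtain ⟨h1, h2⟩ := hdec w hw
    have h3 : φ (g * w) = φ (g * (dec w).1) * χ (dec w).2 := by
      have := hφS (g * (dec w).1) (hGWm g hgG _ (hYW h1)) (dec w).2
      rwa [mul_assoc, ← h2] at this
    rw [h3, hconstY _ h1, hφY _ h1, mul_one]
  -- all of `G` is good
  have hall : ∀ m j, Gl G (j + m) ≤ O → Gl G j ≤ O := by
    intro m
    induction m with
    | zero => intro j h; exact h
    | succ m ihm =>
      intro j h
      have h1 : Gl G (j + 1) ≤ O := ihm (j + 1) (by rwa [add_right_comm, add_assoc])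
      obtain ⟨V, hV, hVO⟩ := hsmall j h1
      intro x hx
      refine hOcl x (Gl_le G j hx) ?_
      refine closure_mono ?_ (gen hLG hgen j V hV x hx)
      rw [SetLike.coe_subset_coe, Subgroup.closure_le]
      rintro y ((⟨hy1, hy2⟩ | ⟨hy1, hy2⟩) | hy2)
      · exact hVO y hy1 hy2
      · exact hLO hy1
      · exact h1 hy2
  obtain ⟨c, hc⟩ := hnil
  have hGO : G ≤ O := by
    have h1 : Gl G 0 ≤ O := hall c 0 (by rw [zero_add, hc]; exact bot_le)
    exact h1
  -- the character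
  let ch : G →* Circle :=
    { toFun := fun g => φ g
      map_one' := hφ1
      map_mul' := fun a b => (hGO a.2).2 b (hGW b b.2) }
  have hch : Continuous ch := by
    have := hcontG1
    rw [continuousOn_iff_continuous_domRestrict] at this
    exact this
  have hfin := hchar ch hch (by
    intro g hg
    change φ g = 1
    have := hφL g hg 1 h1W
    rwa [mul_one, hφ1] at this) (by
    intro g hg
    change φ g = 1
    have := hφN 1 h1W g (hΛ hg)
    rwa [one_mul, hφ1] at this)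
  have hW1 : ∀ w ∈ W, φ w = 1 := by
    have h1 : EqOn φ (fun _ => (1 : Circle)) W := by
      refine EqOn.of_subset_closure (s := {z : P | ∃ l ∈ G, ∃ p ∈ N, z = l * 1 * p}) ?_
        hcont continuousOn_const subset_closure subset_rfl
      rintro _ ⟨g, hg, p, hp, rfl⟩
      change φ (g * 1 * p) = 1
      rw [mul_one, hφN g (hGW g hg) p hp]
      exact hfin ⟨g, hg⟩
    exact fun w hw => h1 hw
  apply hχs
  have h1 := hφ 1 h1Y ⟨s, hs⟩
  rw [← h1]
  exact hW1 _ (by rw [one_mul]; exact hs.2)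

theorem taskA2 : Pool.Agent.Helper75x.NR.TaskA2 := by
  intro P _ _ _ _ _ Λ hΛ hcomp L G hLG hgen hchar x hx
  obtain ⟨c, hc⟩ := Subgroup.nilpotent_iff_lowerCentralSeries.1
    (inferInstance : Group.IsNilpotent P)
  have hnil : ∃ c, Gl G c = ⊥ :=
    (Subgroup.isNilpotent_iff_lowerCentralSeries G).1 inferInstance
  have key : ∀ i, ∀ x ∈ G, x ∈ Oc L 1 (NN Λ i) := by
    intro i
    induction i with
    | zero =>
      intro x _
      rw [NN_zero]
      have h := mem_Oc (K := L) (N := (⊤ : Subgroup P)) (x := 1) (l := 1) (p := x) (one_mem _)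
        (Subgroup.mem_top _)
      simpa using h
    | succ i ih =>
      have : CompactSpace (P ⧸ NN Λ (i + 1)) := compact_quot (le_NN Λ (i + 1))
      exact a2_step hLG (NN_anti Λ i) (NN_closed Λ i) (fun n hn p hp => NN_norm Λ i hn hp)
        (fun u hu v hv => NN_comm Λ i hu hv) (dist_all Λ L (i + 1)) (dist_all Λ G (i + 1)) hnil
        (le_NN Λ (i + 1)) hgen hchar ih
  have h := key c x hx
  rw [NN_bot Λ hΛ hc] at h
  refine closure_mono ?_ h
  rintro _ ⟨l, hl, p, hp, rfl⟩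
  exact ⟨l, hl, p, hp, by rw [mul_one]⟩

end Pool.Agent.Helper75x.NRA
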