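import Pool.Agent.Helper75x.NRA.Basic
import Pool.Agent.Helper75x.NR.StmA

/-! Project S04319, task A1: distality. -/

set_option autoImplicit false
set_option linter.unusedSectionVars false

namespace Pool.Agent.Helper75x.NRA

open Topology Pointwise Set

variable {P : Type} [Group P] [TopologicalSpace P] [IsTopologicalGroup P]

/-- the orbit relation is symmetric -/
def Dist (K N : Subgroup P) : Prop := ∀ x y : P, y ∈ Oc K x N → x ∈ Oc K y N

theorem a1_step {K N N' : Subgroup P} [CompactSpace (P ⧸ N)] (hNN : N ≤ N')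
    (hN'c : IsClosed (N' : Set P)) (hnorm : ∀ n ∈ N', ∀ p ∈ N, n⁻¹ * p * n ∈ N)
    (ih : Dist K N') : Dist K N := by
  intro x y hy
  obtain ⟨D, hDZ, hDne, hDc, hDL, hDR, hmin⟩ := exists_min K N (Oc K y N) (Oc_closed K y N)
    ⟨y, self_mem K y N⟩ (Oc_LI K y N) (Oc_RI K y N)
  -- `D N'` is closed
  have hc : IsClosed (D * (N' : Set P)) := closed_mul N hDc hN'c hDR
    (fun m hm a ha => mul_mem (hNN hm) ha)
  obtain ⟨d, hd⟩ := hDne
  have h1 : d ∈ Oc K x N' := Oc_mono le_rfl hNN x (Oc_trans hy (hDZ hd))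
  have h2 : x ∈ Oc K d N' := ih x d h1
  have h3 : Oc K d N' ⊆ D * (N' : Set P) := by
    refine Oc_subset hc ?_ ?_ ⟨d, hd, 1, one_mem N', by simp⟩
    · rintro l hl _ ⟨a, ha, b, hb, rfl⟩
      exact ⟨l * a, hDL l hl a ha, b, hb, by simp [mul_assoc]⟩
    · rintro l hl _ ⟨a, ha, b, hb, rfl⟩
      exact ⟨a, ha, b * l, mul_mem hb hl, by simp [mul_assoc]⟩
  obtain ⟨e, he, n, hn, hxn⟩ := h3 h2
  simp only at hxn
  -- the translate `D n`
  set D' : Set P := {z | z * n⁻¹ ∈ D} with hD'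
  have hD'c : IsClosed D' := hDc.preimage (by fun_prop : Continuous fun z : P => z * n⁻¹)
  have hD'L : LI K D' := by
    intro l hl z hz
    change l * z * n⁻¹ ∈ D
    rw [mul_assoc]
    exact hDL l hl _ hz
  have hD'R : RI N D' := by
    intro p hp z hz
    change z * p * n⁻¹ ∈ D
    have h4 : n * p * n⁻¹ ∈ N := by
      have := hnorm n⁻¹ (inv_mem hn) p hp
      rwa [inv_inv] at this
    have h5 := hDR _ h4 _ hz
    have h6 : z * n⁻¹ * (n * p * n⁻¹) = z * p * n⁻¹ := by group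
    rwa [h6] at h5
  have hxD' : x ∈ D' := by
    change x * n⁻¹ ∈ D
    rw [← hxn]
    simpa using he
  have h7 : Oc K x N ⊆ D' := Oc_subset hD'c hD'L hD'R hxD'
  have h8 : y ∈ D' := h7 hy
  -- minimality
  have h9 : D ⊆ {z | z * n ∈ Oc K y N} := by
    refine hmin _ ?_ ⟨y * n⁻¹, ?_⟩ ?_ ?_ ?_
    · intro z hz
      have h10 : z * n ∈ D' := h7 (Oc_trans hy hz)
      change z * n * n⁻¹ ∈ D at h10
      simpa using h10
    · change y * n⁻¹ * n ∈ Oc K y N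
      simpa using self_mem K y N
    · exact (Oc_closed K y N).preimage (by fun_prop : Continuous fun z : P => z * n)
    · intro l hl z hz
      change l * z * n ∈ Oc K y N
      rw [mul_assoc]
      exact Oc_LI K y N l hl _ hz
    · intro p hp z hz
      change z * p * n ∈ Oc K y N
      have h5 := Oc_RI K y N _ (hnorm n hn p hp) _ hz
      have h6 : z * n * (n⁻¹ * p * n) = z * p * n := by group
      rwa [h6] at h5
  have h10 := h9 hxD'
  simpa using h10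

/-- `closure (C_i Λ)` -/
def NN (Λ : Subgroup P) (i : ℕ) : Subgroup P :=
  ((⊤ : Subgroup P).lowerCentralSeries i ⊔ Λ).topologicalClosure

lemma NN_closed (Λ : Subgroup P) (i : ℕ) : IsClosed (NN Λ i : Set P) :=
  Subgroup.isClosed_topologicalClosure _

lemma le_NN (Λ : Subgroup P) (i : ℕ) : Λ ≤ NN Λ i :=
  le_sup_right.trans (Subgroup.le_topologicalClosure _)

lemma NN_zero (Λ : Subgroup P) : NN Λ 0 = ⊤ := by
  rw [eq_top_iff]
  exact le_sup_left.trans (Subgroup.le_topologicalClosure _)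

lemma NN_anti (Λ : Subgroup P) (i : ℕ) : NN Λ (i + 1) ≤ NN Λ i :=
  Subgroup.topologicalClosure_mono (sup_le_sup_right
    (Subgroup.lowerCentralSeries_antitone _ (Nat.le_succ i)) _)

lemma NN_bot (Λ : Subgroup P) (hΛ : IsClosed (Λ : Set P)) {c : ℕ}
    (hc : (⊤ : Subgroup P).lowerCentralSeries c = ⊥) : NN Λ c = Λ := by
  unfold NN
  rw [hc, bot_sup_eq]
  exact le_antisymm (Subgroup.topologicalClosure_minimal _ le_rfl hΛ)
    (Subgroup.le_topologicalClosure _)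

/-- elements of `C_i Λ` -/
lemma mem_CL {Λ : Subgroup P} {i : ℕ} {u : P} :
    u ∈ (⊤ : Subgroup P).lowerCentralSeries i ⊔ Λ ↔
      ∃ c ∈ (⊤ : Subgroup P).lowerCentralSeries i, ∃ l ∈ Λ, c * l = u :=
  Subgroup.mem_sup_of_normal_left

lemma comm_mem_C {i : ℕ} {c : P} (hc : c ∈ (⊤ : Subgroup P).lowerCentralSeries i) (g : P) :
    c * g * c⁻¹ * g⁻¹ ∈ (⊤ : Subgroup P).lowerCentralSeries (i + 1) := by
  rw [Subgroup.lowerCentralSeries_succ]
  exact Subgroup.commutator_mem_commutator hc (Subgroup.mem_top g)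

/-- `C_i Λ` normalises `C_{i+1} Λ` -/
lemma conj_mem_CL {Λ : Subgroup P} {i : ℕ} {u v : P}
    (hu : u ∈ (⊤ : Subgroup P).lowerCentralSeries i ⊔ Λ)
    (hv : v ∈ (⊤ : Subgroup P).lowerCentralSeries (i + 1) ⊔ Λ) :
    u * v * u⁻¹ ∈ (⊤ : Subgroup P).lowerCentralSeries (i + 1) ⊔ Λ := by
  obtain ⟨c, hc, l, hl, rfl⟩ := mem_CL.1 hu
  obtain ⟨d, hd, m, hm, rfl⟩ := mem_CL.1 hv
  have h1 : l * m * l⁻¹ ∈ Λ := mul_mem (mul_mem hl hm) (inv_mem hl)
  have h2 : c * (l * m * l⁻¹) * c⁻¹ * (l * m * l⁻¹)⁻¹ ∈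
      (⊤ : Subgroup P).lowerCentralSeries (i + 1) := comm_mem_C hc _
  have h3 : (c * l) * d * (c * l)⁻¹ ∈ (⊤ : Subgroup P).lowerCentralSeries (i + 1) :=
    (inferInstance : ((⊤ : Subgroup P).lowerCentralSeries (i + 1)).Normal).conj_mem d hd _
  rw [mem_CL]
  refine ⟨_, mul_mem h3 h2, _, h1, ?_⟩
  group

/-- commutators of elements of `C_i Λ` are in `C_{i+1} Λ` -/
lemma comm_mem_CL {Λ : Subgroup P} {i : ℕ} {u v : P}
    (hu : u ∈ (⊤ : Subgroup P).lowerCentralSeries i ⊔ Λ)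
    (hv : v ∈ (⊤ : Subgroup P).lowerCentralSeries i ⊔ Λ) :
    u * v * u⁻¹ * v⁻¹ ∈ (⊤ : Subgroup P).lowerCentralSeries (i + 1) ⊔ Λ := by
  obtain ⟨c, hc, l, hl, rfl⟩ := mem_CL.1 hu
  obtain ⟨d, hd, m, hm, rfl⟩ := mem_CL.1 hv
  have hl' : l ∈ (⊤ : Subgroup P).lowerCentralSeries (i + 1) ⊔ Λ := le_sup_right (α := Subgroup P) hl
  have hm' : m ∈ (⊤ : Subgroup P).lowerCentralSeries (i + 1) ⊔ Λ := le_sup_right (α := Subgroup P) hm
  have hle : ∀ x ∈ (⊤ : Subgroup P).lowerCentralSeries (i + 1),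
      x ∈ (⊤ : Subgroup P).lowerCentralSeries (i + 1) ⊔ Λ := fun x hx =>
    le_sup_left (α := Subgroup P) hx
  -- `c l d m l⁻¹ c⁻¹ m⁻¹ d⁻¹`
  -- move `c` through `l d m l⁻¹`
  have h1 := hle _ (comm_mem_C hc (l * (d * m) * l⁻¹))
  -- `l d m l⁻¹ m⁻¹ d⁻¹ = (l d l⁻¹ d⁻¹) (d (l m l⁻¹ m⁻¹) d⁻¹)`
  have h2 : l * d * l⁻¹ * d⁻¹ ∈ (⊤ : Subgroup P).lowerCentralSeries (i + 1) ⊔ Λ := by
    have := hle _ (inv_mem (comm_mem_C hd l))
    convert this using 1
    group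
  have h3 : d * (l * m * l⁻¹ * m⁻¹) * d⁻¹ ∈ (⊤ : Subgroup P).lowerCentralSeries (i + 1) ⊔ Λ := by
    refine conj_mem_CL (le_sup_left (α := Subgroup P) hd) ?_
    exact mul_mem (mul_mem (mul_mem hl' hm') (inv_mem hl')) (inv_mem hm')
  have h4 := mul_mem (mul_mem h1 h2) h3
  convert h4 using 1
  group

lemma NN_norm (Λ : Subgroup P) (i : ℕ) {n p : P} (hn : n ∈ NN Λ i) (hp : p ∈ NN Λ (i + 1)) :
    n * p * n⁻¹ ∈ NN Λ (i + 1) := by
  have h1 : ∀ u ∈ (⊤ : Subgroup P).lowerCentralSeries i ⊔ Λ, ∀ p ∈ NN Λ (i + 1),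
      u * p * u⁻¹ ∈ NN Λ (i + 1) := by
    intro u hu p hp
    exact map_mem_closure (f := fun z => u * z * u⁻¹) (by fun_prop) hp
      (fun z hz => conj_mem_CL hu hz)
  have h2 : n * p * n⁻¹ ∈ closure ((NN Λ (i + 1) : Subgroup P) : Set P) :=
    map_mem_closure (f := fun z => z * p * z⁻¹) (by fun_prop) hn (fun z hz => h1 z hz p hp)
  rwa [(NN_closed Λ (i + 1)).closure_eq] at h2

lemma NN_comm (Λ : Subgroup P) (i : ℕ) {u v : P} (hu : u ∈ NN Λ i) (hv : v ∈ NN Λ i) :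
    u * v * u⁻¹ * v⁻¹ ∈ NN Λ (i + 1) := by
  have h1 : ∀ u ∈ (⊤ : Subgroup P).lowerCentralSeries i ⊔ Λ, ∀ v ∈ NN Λ i,
      u * v * u⁻¹ * v⁻¹ ∈ NN Λ (i + 1) := by
    intro u hu v hv
    exact map_mem_closure (f := fun z => u * z * u⁻¹ * z⁻¹) (by fun_prop) hv
      (fun z hz => comm_mem_CL hu hz)
  have h2 : u * v * u⁻¹ * v⁻¹ ∈ closure ((NN Λ (i + 1) : Subgroup P) : Set P) :=
    map_mem_closure (f := fun z => z * v * z⁻¹ * v⁻¹) (by fun_prop) hu
      (fun z hz => h1 z hz v hv)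
  rwa [(NN_closed Λ (i + 1)).closure_eq] at h2

/-- quotients by larger subgroups are compact -/
lemma compact_quot {Λ N : Subgroup P} (h : Λ ≤ N) [CompactSpace (P ⧸ Λ)] :
    CompactSpace (P ⧸ N) := by
  let f : P ⧸ Λ → P ⧸ N := Quotient.map' id (by
    intro a b hab
    rw [QuotientGroup.leftRel_apply] at hab ⊢
    exact h hab)
  have hf : Continuous f := by
    rw [(QuotientGroup.isOpenQuotientMap_mk (N := Λ)).isQuotientMap.continuous_iff]
    exact continuous_quotient_mk'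
  have hs : Function.Surjective f := by
    intro q
    obtain ⟨x, rfl⟩ := QuotientGroup.mk_surjective q
    exact ⟨QuotientGroup.mk x, rfl⟩
  exact hs.compactSpace hf

theorem dist_all (Λ : Subgroup P) [CompactSpace (P ⧸ Λ)] (K : Subgroup P) (i : ℕ) :
    Dist K (NN Λ i) := by
  induction i with
  | zero =>
    intro x y _
    rw [NN_zero]
    have h := mem_Oc (K := K) (N := (⊤ : Subgroup P)) (x := y) (l := 1) (p := y⁻¹ * x) (one_mem _)
      (Subgroup.mem_top _)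
    simpa using h
  | succ i ih =>
    have : CompactSpace (P ⧸ NN Λ (i + 1)) := compact_quot (le_NN Λ (i + 1))
    refine a1_step (NN_anti Λ i) (NN_closed Λ i) ?_ ih
    intro n hn p hp
    have := NN_norm Λ i (inv_mem hn) hp
    rwa [inv_inv] at this

theorem taskA1 : Pool.Agent.Helper75x.NR.TaskA1 := by
  intro P _ _ _ _ _ Λ hΛ hcomp K x y hy
  obtain ⟨c, hc⟩ := Subgroup.nilpotent_iff_lowerCentralSeries.1 (inferInstance : Group.IsNilpotent P)
  have h := dist_all Λ K c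
  rw [NN_bot Λ hΛ hc] at h
  exact h x y hy

end Pool.Agent.Helper75x.NRA
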