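import Mathlib

/-! Project S04319, task A: orbit closures modulo subgroups. -/

set_option autoImplicit false

namespace Pool.Agent.Helper75x.NRA

open Topology Pointwise Set

variable {P : Type} [Group P] [TopologicalSpace P]

/-- the closure of `K x N` -/
def Oc (K : Subgroup P) (x : P) (N : Subgroup P) : Set P :=
  closure {z : P | ∃ l ∈ K, ∃ p ∈ N, z = l * x * p}

/-- left invariance -/
def LI (K : Subgroup P) (D : Set P) : Prop := ∀ l ∈ K, ∀ z ∈ D, l * z ∈ D

/-- right invariance -/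
def RI (N : Subgroup P) (D : Set P) : Prop := ∀ p ∈ N, ∀ z ∈ D, z * p ∈ D

lemma Oc_closed (K : Subgroup P) (x : P) (N : Subgroup P) : IsClosed (Oc K x N) := isClosed_closure

lemma self_mem (K : Subgroup P) (x : P) (N : Subgroup P) : x ∈ Oc K x N :=
  subset_closure ⟨1, one_mem _, 1, one_mem _, by simp⟩

lemma mem_Oc {K N : Subgroup P} {x l p : P} (hl : l ∈ K) (hp : p ∈ N) : l * x * p ∈ Oc K x N :=
  subset_closure ⟨l, hl, p, hp, rfl⟩

lemma Oc_subset {K N : Subgroup P} {x : P} {D : Set P} (hD : IsClosed D) (hL : LI K D)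
    (hR : RI N D) (hx : x ∈ D) : Oc K x N ⊆ D :=
  closure_minimal (by rintro _ ⟨k, hk, p, hp, rfl⟩; exact hR p hp _ (hL k hk _ hx)) hD

lemma Oc_mono {K K' N N' : Subgroup P} (hK : K ≤ K') (hN : N ≤ N') (x : P) :
    Oc K x N ⊆ Oc K' x N' :=
  closure_mono (by rintro _ ⟨k, hk, p, hp, rfl⟩; exact ⟨k, hK hk, p, hN hp, rfl⟩)

variable [IsTopologicalGroup P]

lemma Oc_LI (K : Subgroup P) (x : P) (N : Subgroup P) : LI K (Oc K x N) := by
  intro l hl z hz
  refine map_mem_closure (f := fun z => l * z) (by fun_prop) hz ?_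
  rintro _ ⟨k, hk, p, hp, rfl⟩
  exact ⟨l * k, mul_mem hl hk, p, hp, by group⟩

lemma Oc_RI (K : Subgroup P) (x : P) (N : Subgroup P) : RI N (Oc K x N) := by
  intro q hq z hz
  refine map_mem_closure (f := fun z => z * q) (by fun_prop) hz ?_
  rintro _ ⟨k, hk, p, hp, rfl⟩
  exact ⟨k, hk, p * q, mul_mem hp hq, by group⟩

lemma Oc_mul {K N : Subgroup P} {x n : P} (hn : ∀ p ∈ N, n⁻¹ * p * n ∈ N) {z : P}
    (hz : z ∈ Oc K x N) : z * n ∈ Oc K (x * n) N := by
  refine map_mem_closure (f := fun z => z * n) (by fun_prop) hz ?_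
  rintro _ ⟨k, hk, p, hp, rfl⟩
  exact ⟨k, hk, n⁻¹ * p * n, hn p hp, by group⟩

/-- transitivity -/
lemma Oc_trans {K N : Subgroup P} {x y : P} (hy : y ∈ Oc K x N) : Oc K y N ⊆ Oc K x N :=
  Oc_subset (Oc_closed K x N) (Oc_LI K x N) (Oc_RI K x N) hy

theorem closed_mul (M : Subgroup P) [CompactSpace (P ⧸ M)] {Y A : Set P} (hY : IsClosed Y)
    (hA : IsClosed A) (hYM : RI M Y) (hAM : LI M A) : IsClosed (Y * A) := by
  set S : Set ((P ⧸ M) × P) :=
    {q | ∃ y ∈ Y, (QuotientGroup.mk y : P ⧸ M) = q.1 ∧ y⁻¹ * q.2 ∈ A} with hS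
  have hSc : IsClosed S := by
    have hq : IsOpenQuotientMap (Prod.map (QuotientGroup.mk : P → P ⧸ M) (id : P → P)) :=
      (QuotientGroup.isOpenQuotientMap_mk).prodMap IsOpenQuotientMap.id
    rw [← hq.isQuotientMap.isClosed_preimage]
    have h1 : Prod.map (QuotientGroup.mk : P → P ⧸ M) (id : P → P) ⁻¹' S =
        {q : P × P | q.1 ∈ Y ∧ q.1⁻¹ * q.2 ∈ A} := by
      ext ⟨a, b⟩
      constructor
      · rintro ⟨y, hy, h2, h3⟩
        simp only [Prod.map_fst, Prod.map_snd, id] at h2 h3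
        have h4 : y⁻¹ * a ∈ M := QuotientGroup.eq.1 h2
        have h5 := hYM _ h4 _ hy
        rw [mul_inv_cancel_left] at h5
        refine ⟨h5, ?_⟩
        have h6 := hAM _ (inv_mem h4) _ h3
        simpa [mul_assoc] using h6
      · rintro ⟨h2, h3⟩
        exact ⟨a, h2, rfl, h3⟩
    rw [h1]
    exact (hY.preimage continuous_fst).inter (hA.preimage (by fun_prop))
  have h2 : Y * A = Prod.snd '' S := by
    ext g
    constructor
    · rintro ⟨y, hy, a, ha, rfl⟩
      exact ⟨(QuotientGroup.mk y, y * a), ⟨y, hy, rfl, by simpa using ha⟩, rfl⟩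
    · rintro ⟨⟨q, g'⟩, ⟨y, hy, -, h3⟩, rfl⟩
      exact ⟨y, hy, _, h3, by simp⟩
  rw [h2]
  exact isClosedMap_snd_of_compactSpace _ hSc

/-- a closed right invariant set comes from a closed set of the quotient -/
lemma image_closed {N : Subgroup P} {D : Set P} (hD : IsClosed D) (hR : RI N D) :
    IsClosed ((QuotientGroup.mk : P → P ⧸ N) '' D) ∧
      ∀ x : P, (QuotientGroup.mk x : P ⧸ N) ∈ (QuotientGroup.mk : P → P ⧸ N) '' D → x ∈ D := by
  have h1 : ∀ x : P, (QuotientGroup.mk x : P ⧸ N) ∈ (QuotientGroup.mk : P → P ⧸ N) '' D →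
      x ∈ D := by
    rintro x ⟨y, hy, h2⟩
    have h4 : y⁻¹ * x ∈ N := QuotientGroup.eq.1 h2
    have h5 := hR _ h4 _ hy
    rwa [mul_inv_cancel_left] at h5
  refine ⟨?_, h1⟩
  rw [← (QuotientGroup.isOpenQuotientMap_mk (N := N)).isQuotientMap.isClosed_preimage]
  convert hD using 1
  ext x
  exact ⟨fun h => h1 x h, fun h => ⟨x, h, rfl⟩⟩

theorem exists_min (K N : Subgroup P) [CompactSpace (P ⧸ N)] (Z : Set P) (hZ : IsClosed Z)
    (hne : Z.Nonempty) (hL : LI K Z) (hR : RI N Z) :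
    ∃ D ⊆ Z, D.Nonempty ∧ IsClosed D ∧ LI K D ∧ RI N D ∧
      ∀ D' ⊆ D, D'.Nonempty → IsClosed D' → LI K D' → RI N D' → D ⊆ D' := by
  obtain ⟨D, hDZ, hD⟩ := zorn_superset_nonempty
    {D : Set P | D.Nonempty ∧ IsClosed D ∧ LI K D ∧ RI N D} (by
      intro c hc hchain hcne
      have : Nonempty c := hcne.to_subtype
      refine ⟨⋂₀ c, ⟨?_, isClosed_sInter fun s hs => (hc hs).2.1,
        fun l hl z hz s hs => (hc hs).2.2.1 l hl z (hz s hs),
        fun p hp z hz s hs => (hc hs).2.2.2 p hp z (hz s hs)⟩, fun s hs => sInter_subset_of_mem hs⟩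
      have h1 := IsCompact.nonempty_iInter_of_directed_nonempty_isCompact_isClosed
        (fun s : c => (QuotientGroup.mk : P → P ⧸ N) '' s.1) (by
          intro s t
          rcases hchain.total s.2 t.2 with h | h
          · exact ⟨s, subset_rfl, image_mono h⟩
          · exact ⟨t, image_mono h, subset_rfl⟩)
        (fun s => (hc s.2).1.image _)
        (fun s => (image_closed (hc s.2).2.1 (hc s.2).2.2.2).1.isCompact)
        (fun s => (image_closed (hc s.2).2.1 (hc s.2).2.2.2).1)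
      obtain ⟨q, hq⟩ := h1
      obtain ⟨x, rfl⟩ := QuotientGroup.mk_surjective q
      refine ⟨x, fun s hs => ?_⟩
      exact (image_closed (hc hs).2.1 (hc hs).2.2.2).2 x (mem_iInter.1 hq ⟨s, hs⟩)) Z
    ⟨hne, hZ, hL, hR⟩
  refine ⟨D, hDZ, hD.prop.1, hD.prop.2.1, hD.prop.2.2.1, hD.prop.2.2.2, ?_⟩
  intro D' h1 h2 h3 h4 h5
  exact hD.le_of_le ⟨h2, h3, h4, h5⟩ h1

end Pool.Agent.Helper75x.NRA
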