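import Pool.Agent.Helper75x.NRA.A1
import Pool.Agent.TH264.Bridge.PW

/-! Project S04319, task A: characters, small powers, generation. -/

set_option autoImplicit false

namespace Pool.Agent.Helper75x.NRA

open Topology Pointwise Set

variable {P : Type} [Group P] [TopologicalSpace P] [IsTopologicalGroup P]

theorem compact_sub (S T : Subgroup P) (hTS : T ≤ S) (hS : IsClosed (S : Set P))
    [CompactSpace (P ⧸ T)] : CompactSpace (S ⧸ T.subgroupOf S) := by
  let f : S ⧸ T.subgroupOf S → P ⧸ T := Quotient.map' (fun s : S => (s : P)) (by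
    intro a b hab
    rw [QuotientGroup.leftRel_apply] at hab ⊢
    exact hab)
  have hfm : ∀ s : S, f (QuotientGroup.mk s) = QuotientGroup.mk (s : P) := fun s => rfl
  have hf : Continuous f := by
    rw [(QuotientGroup.isOpenQuotientMap_mk (N := T.subgroupOf S)).isQuotientMap.continuous_iff]
    exact continuous_quotient_mk'.comp continuous_subtype_val
  have hinj : Function.Injective f := by
    intro p q hpq
    obtain ⟨a, rfl⟩ := QuotientGroup.mk_surjective p
    obtain ⟨b, rfl⟩ := QuotientGroup.mk_surjective q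
    rw [hfm, hfm, QuotientGroup.eq] at hpq
    rw [QuotientGroup.eq]
    exact hpq
  have hcl : IsClosedMap f := by
    intro C hC
    set D : Set P := Subtype.val '' ((QuotientGroup.mk : S → S ⧸ T.subgroupOf S) ⁻¹' C) with hD
    have hDc : IsClosed D :=
      hS.isClosedEmbedding_subtypeVal.isClosedMap _ (hC.preimage continuous_quotient_mk')
    have hDR : RI T D := by
      rintro p hp _ ⟨s, hs, rfl⟩
      refine ⟨s * ⟨p, hTS hp⟩, ?_, rfl⟩
      have h1 : (QuotientGroup.mk (s * ⟨p, hTS hp⟩) : S ⧸ T.subgroupOf S) =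
          QuotientGroup.mk s := by
        rw [eq_comm, QuotientGroup.eq]
        change (s : P)⁻¹ * ((s : P) * p) ∈ T
        rwa [inv_mul_cancel_left]
      change QuotientGroup.mk (s * ⟨p, hTS hp⟩) ∈ C
      rw [h1]
      exact hs
    have h2 : f '' C = (QuotientGroup.mk : P → P ⧸ T) '' D := by
      ext q
      constructor
      · rintro ⟨c, hc, rfl⟩
        obtain ⟨s, rfl⟩ := QuotientGroup.mk_surjective c
        exact ⟨s, ⟨s, hc, rfl⟩, rfl⟩
      · rintro ⟨_, ⟨s, hs, rfl⟩, rfl⟩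
        exact ⟨QuotientGroup.mk s, hs, rfl⟩
    rw [h2]
    exact (image_closed hDc hDR).1
  exact (IsClosedEmbedding.of_continuous_injective_isClosedMap hf hinj hcl).compactSpace

theorem exists_char (S T : Subgroup P) (hTS : T ≤ S) (hS : IsClosed (S : Set P))
    (hT : IsClosed (T : Set P)) [CompactSpace (P ⧸ T)]
    (hcomm : ∀ u ∈ S, ∀ v ∈ S, u * v * u⁻¹ * v⁻¹ ∈ T) (s : P) (hs : s ∈ S) (hsT : s ∉ T) :
    ∃ χ : S →* Circle, Continuous χ ∧ (∀ t (ht : t ∈ T), χ ⟨t, hTS ht⟩ = 1) ∧
      χ ⟨s, hs⟩ ≠ 1 := by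
  have hnormal : (T.subgroupOf S).Normal := by
    refine ⟨fun t ht g => ?_⟩
    rw [Subgroup.mem_subgroupOf] at ht ⊢
    have h1 := mul_mem (hcomm g g.2 t t.2) ht
    simpa using h1
  have hTc : IsClosed ((T.subgroupOf S : Subgroup S) : Set S) :=
    hT.preimage continuous_subtype_val
  have : CompactSpace (S ⧸ T.subgroupOf S) := compact_sub S T hTS hS
  have : T3Space (S ⧸ T.subgroupOf S) := QuotientGroup.instT3Space (hN := hTc)
  let _ : CommGroup (S ⧸ T.subgroupOf S) :=
    { (inferInstance : Group (S ⧸ T.subgroupOf S)) with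
      mul_comm := by
        intro p q
        obtain ⟨a, rfl⟩ := QuotientGroup.mk_surjective p
        obtain ⟨b, rfl⟩ := QuotientGroup.mk_surjective q
        change (QuotientGroup.mk (a * b) : S ⧸ T.subgroupOf S) = QuotientGroup.mk (b * a)
        rw [QuotientGroup.eq, Subgroup.mem_subgroupOf]
        have h1 := hcomm _ (inv_mem b.2) _ (inv_mem a.2)
        simpa [mul_assoc] using h1 }
  have hne : (QuotientGroup.mk (⟨s, hs⟩ : S) : S ⧸ T.subgroupOf S) ≠ 1 := by
    intro h
    rw [QuotientGroup.eq_one_iff, Subgroup.mem_subgroupOf] at h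
    exact hsT h
  obtain ⟨χ, hχ, hχs⟩ := Pool.Agent.TH264.Bridge.char_sep_mul (S ⧸ T.subgroupOf S) _ hne
  refine ⟨χ.comp (QuotientGroup.mk' (T.subgroupOf S)), hχ.comp continuous_quotient_mk', ?_, hχs⟩
  intro t ht
  have h1 : (QuotientGroup.mk (⟨t, hTS ht⟩ : S) : S ⧸ T.subgroupOf S) = 1 := by
    rw [QuotientGroup.eq_one_iff, Subgroup.mem_subgroupOf]
    exact ht
  change χ (QuotientGroup.mk (⟨t, hTS ht⟩ : S)) = 1
  rw [h1]
  exact map_one χ

theorem cdist (u v : Circle) : dist u v = ‖(u : ℂ) - (v : ℂ)‖ := by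
  rw [← dist_eq_norm]
  rfl

/-- if all powers of a unit complex number are within distance one of `1`, then it is `1` -/
theorem eq_one_of_pow (z : Circle) (h : ∀ n : ℕ, ‖((z ^ n : Circle) : ℂ) - 1‖ ≤ 1) : z = 1 := by
  have key : ∀ u : Circle, ‖(u : ℂ) - 1‖ ^ 2 = 2 * (1 - (u : ℂ).re) := by
    intro u
    have h1 : Complex.normSq (u : ℂ) = 1 := Circle.normSq_coe u
    rw [Complex.normSq_apply] at h1
    rw [← Complex.normSq_eq_norm_sq, Complex.normSq_apply]
    simp only [Complex.sub_re, Complex.one_re, Complex.sub_im, Complex.one_im]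
    nlinarith
  have hb : ∀ n : ℕ, 0 ≤ 1 - ((z ^ n : Circle) : ℂ).re ∧ 1 - ((z ^ n : Circle) : ℂ).re ≤ 1 / 2 := by
    intro n
    have h1 := key (z ^ n)
    have h2 := h n
    have h3 := norm_nonneg (((z ^ n : Circle) : ℂ) - 1)
    constructor <;> nlinarith
  have hsq : ∀ n : ℕ, 3 ^ n * (1 - (z : ℂ).re) ≤ 1 - ((z ^ (2 ^ n) : Circle) : ℂ).re := by
    intro n
    induction n with
    | zero => simp
    | succ n ih =>
      obtain ⟨h1, h2⟩ := hb (2 ^ n)
      have h3 : ((z ^ (2 ^ (n + 1)) : Circle) : ℂ).re =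
          2 * (((z ^ (2 ^ n) : Circle) : ℂ).re) ^ 2 - 1 := by
        have e : z ^ (2 ^ (n + 1)) = z ^ (2 ^ n) * z ^ (2 ^ n) := by
          rw [← pow_add, pow_succ, mul_two]
        rw [e, Circle.coe_mul, Complex.mul_re]
        have h4 : Complex.normSq ((z ^ (2 ^ n) : Circle) : ℂ) = 1 := Circle.normSq_coe _
        rw [Complex.normSq_apply] at h4
        nlinarith
      rw [h3, pow_succ]
      nlinarith
  have h0 : 1 - (z : ℂ).re = 0 := by
    have h1 : 0 ≤ 1 - (z : ℂ).re := by
      have := (hb 1).1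
      simpa using this
    by_contra hne
    have hpos : 0 < 1 - (z : ℂ).re := lt_of_le_of_ne h1 (Ne.symm hne)
    obtain ⟨n, hn⟩ := pow_unbounded_of_one_lt (1 / (1 - (z : ℂ).re)) (by norm_num : (1 : ℝ) < 3)
    have h2 := hsq n
    have h3 := (hb (2 ^ n)).2
    rw [div_lt_iff₀ hpos] at hn
    linarith
  have h1 := key z
  rw [h0, mul_zero] at h1
  have h2 : (z : ℂ) - 1 = 0 := by
    rw [← norm_eq_zero]
    exact pow_eq_zero_iff (two_ne_zero) |>.1 h1
  apply Subtype.ext
  rw [sub_eq_zero] at h2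
  simpa using h2

end Pool.Agent.Helper75x.NRA
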