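import Pool.Agent.Helper75x.NRA.Chr

/-! Project S04319, task A: topological generation of the lower central series. -/

set_option autoImplicit false
set_option linter.unusedSectionVars false

namespace Pool.Agent.Helper75x.NRA

open Topology Pointwise Set

variable {P : Type} [Group P] [TopologicalSpace P] [IsTopologicalGroup P]

/-- the lower central series of `G` -/
abbrev Gl (G : Subgroup P) (j : ℕ) : Subgroup P := G.lowerCentralSeries j

lemma Gl_le (G : Subgroup P) (j : ℕ) : Gl G j ≤ G :=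
  G.lowerCentralSeries_antitone (Nat.zero_le j)

lemma Gl_succ_le (G : Subgroup P) (j : ℕ) : Gl G (j + 1) ≤ Gl G j :=
  G.lowerCentralSeries_antitone (Nat.le_succ j)

lemma comm_Gl {G : Subgroup P} {j : ℕ} {x y : P} (hx : x ∈ Gl G j) (hy : y ∈ G) :
    x * y * x⁻¹ * y⁻¹ ∈ Gl G (j + 1) := by
  unfold Gl
  rw [Subgroup.lowerCentralSeries_succ]
  exact Subgroup.commutator_mem_commutator hx hy

lemma comm_Gl' {G : Subgroup P} {j : ℕ} {x y : P} (hx : x ∈ G) (hy : y ∈ Gl G j) :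
    x * y * x⁻¹ * y⁻¹ ∈ Gl G (j + 1) := by
  have := inv_mem (comm_Gl hy hx)
  convert this using 1
  group

/-- the small elements and the elements of `L` -/
def gens (L G : Subgroup P) (V : Set P) (j : ℕ) : Set P :=
  (V ∩ (Gl G j : Set P)) ∪ ((L : Set P) ∩ (Gl G j : Set P)) ∪ (Gl G (j + 1) : Set P)

theorem gen {L G : Subgroup P} (hLG : L ≤ G)
    (hgen : ∀ V ∈ 𝓝 (1 : P), ∀ x ∈ G,
      x ∈ closure ((Subgroup.closure ((L : Set P) ∪ (V ∩ (G : Set P))) : Subgroup P) : Set P))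
    (j : ℕ) : ∀ V ∈ 𝓝 (1 : P), ∀ x ∈ Gl G j,
      x ∈ closure ((Subgroup.closure (gens L G V j) : Subgroup P) : Set P) := by
  induction j with
  | zero =>
    intro V hV x hx
    refine closure_mono ?_ (hgen V hV x hx)
    refine Subgroup.closure_mono ?_
    rintro y (hy | hy)
    · exact Or.inl (Or.inr ⟨hy, hLG hy⟩)
    · exact Or.inl (Or.inl hy)
  | succ j ih =>
    intro V hV
    set T : Subgroup P := (Subgroup.closure (gens L G V (j + 1))).topologicalClosure with hT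
    have hTc : IsClosed (T : Set P) := Subgroup.isClosed_topologicalClosure _
    have hgT : ∀ y ∈ gens L G V (j + 1), y ∈ T := fun y hy =>
      Subgroup.le_topologicalClosure _ (Subgroup.subset_closure hy)
    have h2T : ∀ y ∈ Gl G (j + 1 + 1), y ∈ T := fun y hy => hgT y (Or.inr hy)
    -- first: commutators with elements of `L`
    have h1 : ∀ l ∈ L, ∀ x ∈ Gl G j, x * l * x⁻¹ * l⁻¹ ∈ T := by
      intro l hl x hx
      have hlG := hLG hl
      have hV' : {z : P | z * l * z⁻¹ * l⁻¹ ∈ V} ∈ 𝓝 (1 : P) := by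
        have hc : ContinuousAt (fun z : P => z * l * z⁻¹ * l⁻¹) 1 :=
          (by fun_prop : Continuous fun z : P => z * l * z⁻¹ * l⁻¹).continuousAt
        refine hc ?_
        simpa using hV
      have hx' := ih _ hV' x hx
      have hcl : IsClosed {z : P | z * l * z⁻¹ * l⁻¹ ∈ T} :=
        hTc.preimage (by fun_prop : Continuous fun z : P => z * l * z⁻¹ * l⁻¹)
      refine closure_minimal ?_ hcl hx'
      intro z hz
      have hz2 : z ∈ Gl G j ∧ z * l * z⁻¹ * l⁻¹ ∈ T := by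
        refine Subgroup.closure_induction (p := fun z _ => z ∈ Gl G j ∧ z * l * z⁻¹ * l⁻¹ ∈ T)
          ?_ ?_ ?_ ?_ hz
        · rintro z ((⟨hz1, hz2⟩ | ⟨hz1, hz2⟩) | hz2)
          · exact ⟨hz2, hgT _ (Or.inl (Or.inl ⟨hz1, comm_Gl hz2 hlG⟩))⟩
          · refine ⟨hz2, hgT _ (Or.inl (Or.inr ⟨?_, comm_Gl hz2 hlG⟩))⟩
            exact mul_mem (mul_mem (mul_mem hz1 hl) (inv_mem hz1)) (inv_mem hl)
          · exact ⟨Gl_succ_le G j hz2, h2T _ (comm_Gl hz2 hlG)⟩
        · refine ⟨one_mem _, ?_⟩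
          simp
        · rintro z z' - - ⟨a1, a2⟩ ⟨b1, b2⟩
          refine ⟨mul_mem a1 b1, ?_⟩
          have e : z * z' * l * (z * z')⁻¹ * l⁻¹ =
              (z * (z' * l * z'⁻¹ * l⁻¹) * z⁻¹ * (z' * l * z'⁻¹ * l⁻¹)⁻¹) *
                (z' * l * z'⁻¹ * l⁻¹) * (z * l * z⁻¹ * l⁻¹) := by group
          rw [e]
          exact mul_mem (mul_mem (h2T _ (comm_Gl' (Gl_le G j a1) (comm_Gl b1 hlG))) b2) a2
        · rintro z - ⟨a1, a2⟩
          refine ⟨inv_mem a1, ?_⟩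
          have e : z⁻¹ * l * z⁻¹⁻¹ * l⁻¹ =
              (z⁻¹ * (z * l * z⁻¹ * l⁻¹)⁻¹ * z⁻¹⁻¹ * (z * l * z⁻¹ * l⁻¹)⁻¹⁻¹) *
                (z * l * z⁻¹ * l⁻¹)⁻¹ := by group
          rw [e]
          exact mul_mem (h2T _ (comm_Gl' (inv_mem (Gl_le G j a1)) (inv_mem (comm_Gl a1 hlG))))
            (inv_mem a2)
      exact hz2.2
    -- second: all commutators
    have h3 : ∀ x ∈ Gl G j, ∀ y ∈ G, x * y * x⁻¹ * y⁻¹ ∈ T := by
      intro x hx y hy
      have hV' : {z : P | x * z * x⁻¹ * z⁻¹ ∈ V} ∈ 𝓝 (1 : P) := by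
        have hc : ContinuousAt (fun z : P => x * z * x⁻¹ * z⁻¹) 1 :=
          (by fun_prop : Continuous fun z : P => x * z * x⁻¹ * z⁻¹).continuousAt
        refine hc ?_
        simpa using hV
      have hcl : IsClosed {z : P | x * z * x⁻¹ * z⁻¹ ∈ T} :=
        hTc.preimage (by fun_prop : Continuous fun z : P => x * z * x⁻¹ * z⁻¹)
      refine closure_minimal ?_ hcl (hgen _ hV' y hy)
      intro z hz
      have hz2 : z ∈ G ∧ x * z * x⁻¹ * z⁻¹ ∈ T := by
        refine Subgroup.closure_induction (p := fun z _ => z ∈ G ∧ x * z * x⁻¹ * z⁻¹ ∈ T)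
          ?_ ?_ ?_ ?_ hz
        · rintro z (hz1 | ⟨hz1, hz2⟩)
          · exact ⟨hLG hz1, h1 z hz1 x hx⟩
          · exact ⟨hz2, hgT _ (Or.inl (Or.inl ⟨hz1, comm_Gl hx hz2⟩))⟩
        · refine ⟨one_mem _, ?_⟩
          simp
        · rintro z z' - - ⟨a1, a2⟩ ⟨b1, b2⟩
          refine ⟨mul_mem a1 b1, ?_⟩
          have e : x * (z * z') * x⁻¹ * (z * z')⁻¹ =
              (x * z * x⁻¹ * z⁻¹) *
              (z * (x * z' * x⁻¹ * z'⁻¹) * z⁻¹ * (x * z' * x⁻¹ * z'⁻¹)⁻¹) *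
                (x * z' * x⁻¹ * z'⁻¹) := by group
          rw [e]
          exact mul_mem (mul_mem a2 (h2T _ (comm_Gl' a1 (comm_Gl hx b1)))) b2
        · rintro z - ⟨a1, a2⟩
          refine ⟨inv_mem a1, ?_⟩
          have e : x * z⁻¹ * x⁻¹ * z⁻¹⁻¹ =
              (z⁻¹ * (x * z * x⁻¹ * z⁻¹)⁻¹ * z⁻¹⁻¹ * (x * z * x⁻¹ * z⁻¹)⁻¹⁻¹) *
                (x * z * x⁻¹ * z⁻¹)⁻¹ := by group
          rw [e]
          exact mul_mem (h2T _ (comm_Gl' (inv_mem a1) (inv_mem (comm_Gl hx a1)))) (inv_mem a2)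
      exact hz2.2
    have h4 : Gl G (j + 1) ≤ T := by
      unfold Gl
      rw [Subgroup.lowerCentralSeries_succ, Subgroup.commutator_le]
      intro x hx y hy
      exact h3 x hx y hy
    exact fun x hx => h4 hx

end Pool.Agent.Helper75x.NRA
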